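import Pool.Graph.R_seed8.W622.ETC.Basic

set_option autoImplicit false
set_option linter.unusedSectionVars false

/-! # Linked families of symmetric forms, injective at a vector: first facts -/

namespace Pool.Agent.Helper94.Slot

open Module Pool.Agent.W622.ETC

variable {V : Type} [AddCommGroup V] [Module (ZMod 2) V] [Finite V]

/-- a linked family of symmetric forms such that no nonzero member kills `e` -/
structure CS (A : Fam V) (e : V) : Prop where
  sym : ∀ ω ∈ A, ∀ a b, ω a b = ω b a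
  lk : Linked A
  inj : ∀ ω ∈ A, ω e = 0 → ω = 0

variable {A : Fam V} {e : V}

omit [Finite V] in
theorem aez {v w : V} : v + w = 0 ↔ v = w := Pool.Agent.W622.ETC.add_eq_zero'

theorem mem_sp_sym {ω : Frm V} (h : ∀ a b, ω a b = ω b a) {f : Dl V} :
    f ∈ sp ω ↔ ∀ b : V, ω b = 0 → f b = 0 := by
  constructor
  · rintro ⟨a, rfl⟩ b hb
    rw [h, hb]; rfl
  · intro hf
    refine mem_of_coann fun b hb => hf b ?_
    refine LinearMap.ext fun a => ?_
    rw [h]
    exact hb (ω a) ⟨a, rfl⟩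

/-- a vector outside a subspace is detected by a functional vanishing on it -/
theorem exists_dual {W : Submodule (ZMod 2) V} {v : V} (h : v ∉ W) :
    ∃ f : Dl V, (∀ w ∈ W, f w = 0) ∧ f v = 1 := by
  obtain ⟨f, hf1, hf2⟩ := Submodule.exists_le_ker_of_notMem h
  exact ⟨f, fun w hw => hf2 hw, z_ne hf1⟩

/-- linear algebra for the key lemma -/
theorem exists_shift (R : Submodule (ZMod 2) V) (E : DSub V) (g : Dl V) (a : V)
    (h1 : ∀ f ∈ E, (∀ r ∈ R, f r = 0) → f a = 0)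
    (h2 : ∀ f ∈ E, ∃ r ∈ R, f r ≠ g r) :
    ∃ r ∈ R, (∀ f ∈ E, f (a + r) = 0) ∧ g (a + r) = 1 := by
  -- `x` in `R`, killed by `E`, with `g x = 1`
  have hx : ∃ x ∈ R, (∀ f ∈ E, f x = 0) ∧ g x = 1 := by
    let X : DSub V := E ⊔ R.dualAnnihilator
    have hg : g ∉ X := by
      intro hg
      obtain ⟨f, hf, f', hf', hff⟩ := Submodule.mem_sup.1 hg
      obtain ⟨r, hr, hne⟩ := h2 f hf
      apply hne
      rw [← hff, LinearMap.add_apply, (Submodule.mem_dualAnnihilator f').1 hf' r hr, add_zero]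
    obtain ⟨x, hx, hx1⟩ := exists_coann hg
    refine ⟨x, ?_, fun f hf => hx f (Submodule.mem_sup_left hf), hx1⟩
    by_contra hxR
    obtain ⟨f, hf1, hf2⟩ := exists_dual hxR
    have := hx f (Submodule.mem_sup_right ((Submodule.mem_dualAnnihilator f).2 hf1))
    rw [hf2] at this
    exact one_ne_zero this
  -- `a` is a sum of an element of `R` and an element killed by `E`
  have ha : ∃ r ∈ R, ∀ f ∈ E, f (a + r) = 0 := by
    have : a ∈ E.dualCoannihilator ⊔ R := by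
      by_contra hc
      obtain ⟨f, hf1, hf2⟩ := exists_dual hc
      have hfE : f ∈ E := mem_of_coann fun b hb =>
        hf1 b (Submodule.mem_sup_left ((Submodule.mem_dualCoannihilator b).2 hb))
      have := h1 f hfE fun r hr => hf1 r (Submodule.mem_sup_right hr)
      rw [hf2] at this
      exact one_ne_zero this
    obtain ⟨t, ht, r, hr, htr⟩ := Submodule.mem_sup.1 this
    refine ⟨r, hr, fun f hf => ?_⟩
    rw [← htr, add_assoc, vadd, add_zero]
    exact (Submodule.mem_dualCoannihilator t).1 ht f hf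
  obtain ⟨x, hxR, hxE, hxg⟩ := hx
  obtain ⟨r, hr, hrE⟩ := ha
  rcases z01 (g (a + r)) with h0 | h0
  · refine ⟨r + x, R.add_mem hr hxR, fun f hf => ?_, ?_⟩
    · rw [← add_assoc, map_add, hrE f hf, hxE f hf, add_zero]
    · rw [← add_assoc, map_add, h0, hxg, zero_add]
  · exact ⟨r, hr, hrE, h0⟩

namespace CS

variable (h : CS A e)
include h

theorem mem_sp {ω : Frm V} (hω : ω ∈ A) {f : Dl V} : f ∈ sp ω ↔ ∀ b : V, ω b = 0 → f b = 0 :=
  mem_sp_sym (h.sym ω hω)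

/-- kernels and supports -/
theorem ker_of_le {μ ν : Frm V} (hμ : μ ∈ A) (hν : ν ∈ A) (hl : sp μ ≤ sp ν) {b : V}
    (hb : ν b = 0) : μ b = 0 := by
  refine LinearMap.ext fun x => ?_
  rw [h.sym μ hμ]
  exact (h.mem_sp hν).1 (hl ⟨x, rfl⟩) b hb

theorem le_of_ker {μ ν : Frm V} (hμ : μ ∈ A) (hν : ν ∈ A) (hk : ∀ b, ν b = 0 → μ b = 0) :
    sp μ ≤ sp ν := by
  rintro _ ⟨x, rfl⟩
  rw [h.mem_sp hν]
  intro b hb
  rw [h.sym μ hμ, hk b hb]; rfl

theorem L0 {ω η : Frm V} (hω : ω ∈ A) (hη : η ∈ A) {a : V} (ha : ω a = η e) : η a = η e := by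
  obtain ⟨ζ, hζ, h1, h2⟩ := h.lk ω hω η hη a e ha
  have : ζ + η = 0 := h.inj _ (A.add_mem hζ hη) (by
    rw [LinearMap.add_apply, h2, ha, vadd])
  have hζη : ζ = η := aez.1 this
  rw [← hζη, h1, h2]

theorem L1 {μ ν : Frm V} (hμ : μ ∈ A) (hν : ν ∈ A) (hm : μ e ∈ sp ν) : sp μ ≤ sp ν := by
  obtain ⟨r, hr⟩ := hm
  refine h.le_of_ker hμ hν fun b hb => ?_
  have h1 := h.L0 hν hμ (a := r) hr
  have h2 := h.L0 hν hμ (a := r + b) (by rw [map_add, hb, add_zero, hr])
  rw [map_add, h1] at h2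
  have := congrArg (fun t => μ e + t) h2
  simpa only [add_cancel_left', vadd] using this

theorem antisymm {μ ν : Frm V} (hμ : μ ∈ A) (hν : ν ∈ A) (h1 : sp μ ≤ sp ν) (h2 : sp ν ≤ sp μ) :
    μ = ν := by
  obtain ⟨r, hr⟩ : μ e ∈ sp ν := h1 ⟨e, rfl⟩
  have h3 := h.L0 hν hμ hr
  have h4 : μ (e + r) = 0 := by rw [map_add, h3, vadd]
  have h5 := h.ker_of_le hν hμ h2 h4
  rw [map_add] at h5
  have h6 : ν e = μ e := by rw [← hr]; exact aez.1 h5
  exact (aez.1 (h.inj _ (A.add_mem hν hμ) (by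
    rw [LinearMap.add_apply, h6, vadd]))).symm

theorem F4 {ω η θ : Frm V} (hω : ω ∈ A) (hη : η ∈ A) (hθ : θ ∈ A) {a b : V} (ha : ω a = η e)
    (hb : ω b = θ e) : η b = θ a := by
  have h1 := h.L0 hω hη ha
  have h2 := h.L0 hω hθ hb
  have h3 := h.L0 hω (A.add_mem hη hθ) (a := a + b) (by
    rw [map_add, ha, hb, LinearMap.add_apply])
  simp only [LinearMap.add_apply, map_add, h1, h2] at h3
  have h4 : η b + θ a = 0 := by
    have : η e + θ a + (η b + θ e) = (η e + θ e) + (η b + θ a) := by abel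
    rw [this] at h3
    have := congrArg (fun t => (η e + θ e) + t) h3
    simpa only [add_cancel_left', vadd] using this
  exact aez.1 h4

/-- the key lemma -/
theorem key {ω η : Frm V} (hω : ω ∈ A) (hη : η ∈ A) {a c : V} (hac : ω a = η c) :
    (∃ κ ∈ A, sp κ ≤ sp ω ∧ κ c = ω a) ∨ (∃ κ ∈ A, sp κ ≤ sp ω ∧ κ c = 0 ∧ κ a e = 1) := by
  by_contra hcon
  push Not at hcon
  obtain ⟨n1, n2⟩ := hcon
  -- the members killing `c`, evaluated at `e`
  let E : DSub V :=
    { carrier := {f | ∃ β ∈ A, β c = 0 ∧ f = β e}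
      add_mem' := by
        rintro _ _ ⟨β, hβ, hb, rfl⟩ ⟨β', hβ', hb', rfl⟩
        exact ⟨β + β', A.add_mem hβ hβ', by rw [LinearMap.add_apply, hb, hb', add_zero], rfl⟩
      zero_mem' := ⟨0, A.zero_mem, rfl, rfl⟩
      smul_mem' := by
        rintro t _ ⟨β, hβ, hb, rfl⟩
        exact ⟨t • β, A.smul_mem t hβ, by rw [LinearMap.smul_apply, hb, smul_zero], rfl⟩ }
  obtain ⟨r, hr, hrE, hrg⟩ := exists_shift (LinearMap.ker ω) E ((ω + η) e) a (by
      rintro _ ⟨β, hβ, hb, rfl⟩ hf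
      have hle : sp β ≤ sp ω := h.L1 hβ hω ((h.mem_sp hω).2 fun b hb => hf b hb)
      have := n2 β hβ hle hb
      rw [h.sym β hβ]
      exact z_ne' this) (by
      rintro _ ⟨β, hβ, hb, rfl⟩
      by_contra hc
      push Not at hc
      have hβη : β + η ∈ A := A.add_mem hβ hη
      have hle : sp (β + η) ≤ sp ω := by
        refine h.L1 hβη hω ((h.mem_sp hω).2 fun x hx => ?_)
        have h1 := hc x hx
        rw [LinearMap.add_apply, LinearMap.add_apply, h.sym ω hω e x, hx, LinearMap.zero_apply,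
          zero_add] at h1
        rw [LinearMap.add_apply, LinearMap.add_apply, h1, zadd]
      exact n1 (β + η) hβη hle (by rw [LinearMap.add_apply, hb, zero_add, hac]))
  have hr' : ω r = 0 := hr
  obtain ⟨ζ, hζ, h1, h2⟩ := h.lk ω hω η hη (a + r) c (by rw [map_add, hr', add_zero, hac])
  have hz : ω (a + r) = ω a := by rw [map_add, hr', add_zero]
  rw [hz] at h1 h2
  have hβ : (ζ + η) c = 0 := by rw [LinearMap.add_apply, h2, hac, vadd]
  have hv : (ω + η + (ζ + η)) (a + r) = 0 := by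
    simp only [LinearMap.add_apply]
    rw [h1, hz]
    have : ω a + η (a + r) + (ω a + η (a + r)) = 0 := vadd _
    exact this
  have h3 := hrE ((ζ + η) e) ⟨ζ + η, A.add_mem hζ hη, hβ, rfl⟩
  have h4 : (ω + η + (ζ + η)) e (a + r) = 0 := by
    rw [h.sym _ (A.add_mem (A.add_mem hω hη) (A.add_mem hζ hη)), hv]; rfl
  rw [LinearMap.add_apply, LinearMap.add_apply, h3, hrg, add_zero] at h4
  exact one_ne_zero h4

/-- the number of members below `μ` -/
noncomputable def cnt (A : Fam V) (μ : Frm V) : ℕ := Set.ncard {κ | κ ∈ A ∧ sp κ ≤ sp μ}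

omit h in
theorem cnt_le {μ ν : Frm V} (hl : sp μ ≤ sp ν) : cnt A μ ≤ cnt A ν :=
  Set.ncard_le_ncard (fun _ hκ => ⟨hκ.1, hκ.2.trans hl⟩) (Set.toFinite _)

theorem cnt_lt {μ ν : Frm V} (hμ : μ ∈ A) (hν : ν ∈ A) (hl : sp μ ≤ sp ν) (hne : μ ≠ ν) :
    cnt A μ < cnt A ν := by
  refine Set.ncard_lt_ncard ⟨fun _ hκ => ⟨hκ.1, hκ.2.trans hl⟩, fun hs => ?_⟩ (Set.toFinite _)
  exact hne (h.antisymm hμ hν hl (hs ⟨hν, le_rfl⟩).2)

/-- if `κ ≤ μ` then `κ` and `μ` agree with a preimage of `μ(e)` -/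
theorem at_pre {κ μ ν : Frm V} (hκ : κ ∈ A) (hμ : μ ∈ A) (hν : ν ∈ A) (hl : sp κ ≤ sp μ) {s : V}
    (hs : ν s = μ e) : κ s = κ e := by
  have h1 := h.L0 hν hμ hs
  have h2 : μ (s + e) = 0 := by rw [map_add, h1, vadd]
  have h3 := h.ker_of_le hκ hμ hl h2
  rw [map_add] at h3
  exact aez.1 h3

/-- step A -/
theorem stepA (n : ℕ) : ∀ μ ∈ A, ∀ ν ∈ A, cnt A μ ≤ n → sp μ ≤ sp ν → ∀ a y, ν y = μ a →
    μ y = μ a := by
  induction n with
  | zero =>
    intro μ hμ ν hν hn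
    exfalso
    have : 0 < cnt A μ := by
      rw [cnt, Set.ncard_pos (Set.toFinite _)]
      exact ⟨μ, hμ, le_rfl⟩
    omega
  | succ n ih =>
    intro μ hμ ν hν hn hl a y hy
    rcases h.key hμ hν hy.symm with ⟨κ, hκ, hκl, hκy⟩ | ⟨κ, hκ, hκl, hκy, hκa⟩
    · by_cases hkm : κ = μ
      · rw [← hkm, hκy, hkm]
      have hlt := h.cnt_lt hκ hμ hκl hkm
      have hκa : κ a = μ a := by
        have := ih κ hκ μ hμ (by omega) hκl y a hκy.symm
        rw [this, hκy]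
      obtain ⟨s, hs⟩ : μ e ∈ sp ν := hl ⟨e, rfl⟩
      obtain ⟨r, hr⟩ : κ e ∈ sp ν := hl (hκl ⟨e, rfl⟩)
      have hκs : κ s = κ e := h.at_pre hκ hμ hν hκl hs
      have hκr : κ r = κ e := h.L0 hν hκ hr
      have hle : sp (μ + κ) ≤ sp (ν + κ) := by
        refine h.L1 (A.add_mem hμ hκ) (A.add_mem hν hκ) ⟨s + r, ?_⟩
        simp only [LinearMap.add_apply, map_add, hs, hr, hκs, hκr]
        rw [vadd, add_zero]
      have hνκ : (ν + κ) y = 0 := by
        rw [LinearMap.add_apply, hy, hκy, vadd]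
      have := h.ker_of_le (A.add_mem hμ hκ) (A.add_mem hν hκ) hle hνκ
      rw [LinearMap.add_apply] at this
      rw [aez.1 this, hκy]
    · exfalso
      obtain ⟨s, hs⟩ : μ e ∈ sp ν := hl ⟨e, rfl⟩
      obtain ⟨r, hr⟩ : κ e ∈ sp ν := hl (hκl ⟨e, rfl⟩)
      have h1 : κ s = κ e := h.at_pre hκ hμ hν hκl hs
      have h2 : μ r = κ e := by
        rw [← h1]
        exact h.F4 hν hμ hκ hs hr
      have h3 : κ a e = 0 := by
        rw [h.sym κ hκ, ← h2, h.sym μ hμ, ← hy, h.sym ν hν, hr, h.sym κ hκ, hκy]; rfl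
      rw [h3] at hκa
      exact zero_ne_one hκa

end CS

end Pool.Agent.Helper94.Slot
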