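import Pool.Agent.Helper94.ETC.CS.Hered

set_option autoImplicit false
set_option linter.unusedSectionVars false

/-! # Hereditary linkage: the theorem -/

namespace Pool.Agent.Helper94.Slot

open Module Pool.Agent.W622.ETC

variable {V : Type} [AddCommGroup V] [Module (ZMod 2) V] [Finite V]
variable {A : Fam V} {e : V}

theorem JI.not_rl {T : Finset (Frm V)} (hT : JI T) {μ η : Frm V} (hμ : μ ∈ T) (hη : η ∈ T)
    (hr : Rl μ η) : μ = η := by
  classical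
  by_contra hne
  obtain ⟨f, hf0, hf1, hf2⟩ := hr
  have h1 := hT (fun ρ => if ρ = μ then f else if ρ = η then f else 0) (by
    intro ρ _
    split_ifs with h1 h2
    · rw [h1]; exact hf1
    · rw [h2]; exact hf2
    · exact Submodule.zero_mem _) (by
    rw [← Finset.add_sum_erase T _ hμ, if_pos rfl]
    rw [← Finset.add_sum_erase (T.erase μ) _ (Finset.mem_erase.2 ⟨Ne.symm hne, hη⟩),
      if_neg (Ne.symm hne), if_pos rfl, Finset.sum_eq_zero, add_zero, vadd]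
    intro ρ hρ
    rw [if_neg (Finset.mem_erase.1 (Finset.mem_of_mem_erase hρ)).1,
      if_neg (Finset.mem_erase.1 hρ).1]) μ hμ
  rw [if_pos rfl] at h1
  exact hf0 h1

namespace CS

variable (h : CS A e)
include h

/-- in a relation between values of primes, the sum over each class of related primes is zero -/
theorem class_sum {T : Finset (Frm V)} (hP : ∀ μ ∈ T, Prim A μ) (g : Frm V → Dl V)
    (hg : ∀ μ ∈ T, g μ ∈ sp μ) (hs : ∑ μ ∈ T, g μ = 0)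
    {μ₀ : Frm V} (hμ₀ : μ₀ ∈ T) (p : Frm V → Prop) [DecidablePred p]
    (hp : ∀ ρ ∈ T, p ρ ↔ Rl ρ μ₀) : ∑ ρ ∈ T.filter p, g ρ = 0 := by
  classical
  let CL : Frm V → DSub V := fun μ => if hμ : Prim A μ then cl h μ hμ else ⊥
  have hCL : ∀ μ (hμ : Prim A μ), CL μ = cl h μ hμ := fun μ hμ => dif_pos hμ
  have hCLr : ∀ μ η, Prim A μ → Prim A η → (CL μ = CL η ↔ Rl μ η) := by
    intro μ η hμ hη
    rw [hCL μ hμ, hCL η hη]
    exact ⟨h.rl_of_cl hμ hη, h.cl_eq hμ hη⟩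
  let G : DSub V → Dl V := fun C => ∑ ρ ∈ T.filter (fun ρ => CL ρ = C), g ρ
  have hκ : ∀ C : DSub V, ∃ κ : Frm V, C ∈ T.image CL →
      Prim A κ ∧ CL κ = C ∧ G C ∈ sp κ := by
    intro C
    by_cases hC : C ∈ T.image CL
    · obtain ⟨ρ, hρ, rfl⟩ := Finset.mem_image.1 hC
      have hG : G (CL ρ) ∈ CL ρ := by
        refine Submodule.sum_mem _ fun η hη => ?_
        obtain ⟨h1, h2⟩ := Finset.mem_filter.1 hη
        rw [← h2, hCL η (hP η h1)]
        exact ⟨η, hP η h1, h.rl_refl (hP η h1), hg η h1⟩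
      rw [hCL ρ (hP ρ hρ)] at hG
      obtain ⟨κ, h1, h2, h3⟩ := hG
      refine ⟨κ, fun _ => ⟨h1, (hCLr κ ρ h1 (hP ρ hρ)).2 h2, ?_⟩⟩
      rw [hCL ρ (hP ρ hρ)]
      exact h3
    · exact ⟨0, fun h1 => absurd h1 hC⟩
  choose κ hκ using hκ
  have hinj : Set.InjOn κ (T.image CL : Finset (DSub V)) := by
    intro C hC D hD hCD
    rw [← (hκ C hC).2.1, ← (hκ D hD).2.1, hCD]
  have hJ : JI ((T.image CL).image κ) := by
    refine h.claimJ _ _ le_rfl ?_ ?_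
    · intro μ hμ
      obtain ⟨C, hC, rfl⟩ := Finset.mem_image.1 hμ
      exact (hκ C hC).1
    · intro μ hμ η hη hne hr
      obtain ⟨C, hC, rfl⟩ := Finset.mem_image.1 hμ
      obtain ⟨D, hD, rfl⟩ := Finset.mem_image.1 hη
      apply hne
      rw [← (hCLr _ _ (hκ C hC).1 (hκ D hD).1), (hκ C hC).2.1, (hκ D hD).2.1] at hr
      rw [hr]
  have hz := hJ (fun ρ => G (CL ρ)) (by
    intro μ hμ
    obtain ⟨C, hC, rfl⟩ := Finset.mem_image.1 hμ
    rw [(hκ C hC).2.1]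
    exact (hκ C hC).2.2) (by
    rw [Finset.sum_image hinj]
    rw [Finset.sum_congr rfl (g := G) (fun C hC => by rw [(hκ C hC).2.1])]
    rw [← hs]
    exact Finset.sum_fiberwise_of_maps_to (fun ρ hρ => Finset.mem_image_of_mem CL hρ) g)
  have hC0 : CL μ₀ ∈ T.image CL := Finset.mem_image_of_mem CL hμ₀
  have h1 := hz (κ (CL μ₀)) (Finset.mem_image_of_mem κ hC0)
  rw [(hκ _ hC0).2.1] at h1
  rw [← h1]
  refine Finset.sum_congr (Finset.filter_congr fun ρ hρ => ?_) fun _ _ => rfl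
  rw [hp ρ hρ, hCLr ρ μ₀ (hP ρ hρ) (hP μ₀ hμ₀)]

/-- matching the terms of two independent sums -/
theorem matching {T T' : Finset (Frm V)} (hP : ∀ μ ∈ T, Prim A μ) (hP' : ∀ μ ∈ T', Prim A μ)
    (hT : JI T) (hT' : JI T') (f f' : Frm V → Dl V) (hf : ∀ μ ∈ T, f μ ∈ sp μ)
    (hf' : ∀ μ ∈ T', f' μ ∈ sp μ) (hs : ∑ μ ∈ T, f μ = ∑ μ ∈ T', f' μ) {μ : Frm V} (hμ : μ ∈ T)
    (h0 : f μ ≠ 0) : ∃ η ∈ T', f' η = f μ := by
  classical
  have e1 : ∀ k : Frm V → Dl V, ∑ ρ ∈ T ∪ T', (if ρ ∈ T then k ρ else 0) = ∑ ρ ∈ T, k ρ := by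
    intro k
    rw [← Finset.sum_filter]
    refine Finset.sum_congr ?_ fun _ _ => rfl
    ext ρ
    simp only [Finset.mem_filter, Finset.mem_union]
    tauto
  have e2 : ∀ k : Frm V → Dl V, ∑ ρ ∈ T ∪ T', (if ρ ∈ T' then k ρ else 0) = ∑ ρ ∈ T', k ρ := by
    intro k
    rw [← Finset.sum_filter]
    refine Finset.sum_congr ?_ fun _ _ => rfl
    ext ρ
    simp only [Finset.mem_filter, Finset.mem_union]
    tauto
  have h1 := h.class_sum (T := T ∪ T') (fun ρ hρ => (Finset.mem_union.1 hρ).elim (hP ρ) (hP' ρ))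
    (fun ρ => (if ρ ∈ T then f ρ else 0) + (if ρ ∈ T' then f' ρ else 0)) (by
      intro ρ _
      refine Submodule.add_mem _ ?_ ?_ <;> split_ifs with h1
      · exact hf ρ h1
      · exact Submodule.zero_mem _
      · exact hf' ρ h1
      · exact Submodule.zero_mem _) (by
      rw [Finset.sum_add_distrib, e1, e2, hs, vadd]) (Finset.mem_union_left T' hμ)
    (fun ρ => Rl ρ μ) (fun _ _ => Iff.rfl)
  rw [Finset.sum_filter] at h1
  have h2 : ∑ ρ ∈ T, (if Rl ρ μ then f ρ else 0) + ∑ ρ ∈ T', (if Rl ρ μ then f' ρ else 0) = 0 := by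
    refine Eq.trans ?_ h1
    rw [← e1, ← e2, ← Finset.sum_add_distrib]
    refine Finset.sum_congr rfl fun ρ _ => ?_
    by_cases c1 : Rl ρ μ
    · rw [if_pos c1, if_pos c1, if_pos c1]
    · rw [if_neg c1, if_neg c1, if_neg c1, ite_self, ite_self, add_zero]
  rw [Finset.sum_eq_single μ (fun ρ hρ hne => if_neg fun hr => hne (hT.not_rl hρ hμ hr))
    (fun h3 => absurd hμ h3), if_pos (h.rl_refl (hP μ hμ))] at h2
  have h3 := aez.1 h2
  obtain ⟨η, hη, hη0⟩ : ∃ η ∈ T', (if Rl η μ then f' η else 0) ≠ 0 := by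
    by_contra hc
    push Not at hc
    rw [Finset.sum_eq_zero hc] at h3
    exact h0 h3
  have hr : Rl η μ := by
    by_contra hr
    rw [if_neg hr] at hη0
    exact hη0 rfl
  refine ⟨η, hη, ?_⟩
  rw [h3, Finset.sum_eq_single η (fun ρ hρ hne => if_neg fun hr' => hne
    (hT'.not_rl hρ hη (h.rl_trans (hP' ρ hρ) (hP μ hμ) (hP' η hη) hr' hr.symm)))
    (fun h4 => absurd hη h4), if_pos hr]

/-- linkage for two primes -/
theorem link_prime {μ η : Frm V} (hμ : Prim A μ) (hη : Prim A η) {a c : V} (h0 : μ a ≠ 0)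
    (hac : μ a = η c) : ∃ ζ ∈ A, ζ a = μ a ∧ ζ c = μ a ∧ sp ζ ≤ sp μ ⊔ sp η := by
  rcases h.lem3 hμ hη.1 h0 hac with h1 | ⟨h1, -⟩
  · exact ⟨μ, hμ.1, rfl, h1, le_sup_left⟩
  rcases h.lem3 hη hμ.1 (x := c) (y := a) (by rw [← hac]; exact h0) hac.symm with h2 | ⟨h2, -⟩
  · exact ⟨η, hη.1, by rw [h2, hac], hac.symm, le_sup_right⟩
  · refine ⟨μ + η, A.add_mem hμ.1 hη.1, ?_, ?_, Pool.Agent.W622.ETC.sp_add_le μ η⟩
    · rw [LinearMap.add_apply, h2, add_zero]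
    · rw [LinearMap.add_apply, h1, zero_add, hac]

/-- **hereditary linkage** -/
theorem hered : Hered A := by
  classical
  intro X ω hω η hη a c hac
  obtain ⟨T, hP, hT, rfl⟩ := h.decomp _ ω hω.1 le_rfl
  obtain ⟨T', hP', hT', rfl⟩ := h.decomp _ η hη.1 le_rfl
  have hX : ∀ μ ∈ T, sp μ ≤ X := fun μ hμ => (h.le_tot hP hT hμ).trans (sp_le.2 hω.2)
  have hX' : ∀ μ ∈ T', sp μ ≤ X := fun μ hμ => (h.le_tot hP' hT' hμ).trans (sp_le.2 hη.2)
  have key : ∀ μ : Frm V, ∃ ζ : Frm V, μ ∈ T → ζ ∈ A ∧ ζ a = μ a ∧ ζ c = μ a ∧ sp ζ ≤ X := by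
    intro μ
    by_cases hμ : μ ∈ T
    · by_cases h0 : μ a = 0
      · refine ⟨0, fun _ => ⟨A.zero_mem, h0.symm, h0.symm, ?_⟩⟩
        rw [sp_zero]; exact bot_le
      obtain ⟨ρ, hρ, hρc⟩ := h.matching hP hP' hT hT' (fun μ => μ a) (fun μ => μ c)
        (fun μ _ => ⟨a, rfl⟩) (fun μ _ => ⟨c, rfl⟩) (by
          rw [← tot_apply, ← tot_apply]; exact hac) hμ h0
      obtain ⟨ζ, h1, h2, h3, h4⟩ := h.link_prime (hP μ hμ) (hP' ρ hρ) h0 hρc.symm
      exact ⟨ζ, fun _ => ⟨h1, h2, h3, h4.trans (sup_le (hX μ hμ) (hX' ρ hρ))⟩⟩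
    · exact ⟨0, fun h1 => absurd h1 hμ⟩
  choose ζ hζ using key
  refine ⟨∑ μ ∈ T, ζ μ, ?_, ?_, ?_⟩
  · exact Submodule.sum_mem _ fun μ hμ => mem_res'.2 ⟨(hζ μ hμ).1, (hζ μ hμ).2.2.2⟩
  · rw [LinearMap.sum_apply, tot_apply]
    exact Finset.sum_congr rfl fun μ hμ => (hζ μ hμ).2.1
  · rw [LinearMap.sum_apply, tot_apply]
    exact Finset.sum_congr rfl fun μ hμ => (hζ μ hμ).2.2.1

end CS

end Pool.Agent.Helper94.Slot
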