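import Pool.Agent.Helper94.ETC.CS.Link

set_option autoImplicit false
set_option linter.unusedSectionVars false

/-! # Hereditary linkage -/

namespace Pool.Agent.Helper94.Slot

open Module Pool.Agent.W622.ETC

variable {V : Type} [AddCommGroup V] [Module (ZMod 2) V] [Finite V]
variable {A : Fam V} {e : V}

namespace CS

variable (h : CS A e)
include h

/-- primes with pairwise disjoint supports have jointly independent supports -/
theorem claimJ (n : ℕ) : ∀ T : Finset (Frm V), T.card ≤ n → (∀ μ ∈ T, Prim A μ) →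
    (∀ μ ∈ T, ∀ η ∈ T, μ ≠ η → ¬ Rl μ η) → JI T := by
  classical
  induction n with
  | zero =>
    intro T hn _ _ g _ _ μ hμ
    rw [Nat.le_zero, Finset.card_eq_zero] at hn
    rw [hn] at hμ
    simp at hμ
  | succ n ih =>
    intro T hn hP hd g hg hs
    have hJ : ∀ μ ∈ T, JI (T.erase μ) := by
      intro μ hμ
      refine ih (T.erase μ) (by rw [Finset.card_erase_of_mem hμ]; omega)
        (fun ρ hρ => hP ρ (Finset.mem_of_mem_erase hρ))
        (fun ρ hρ η hη => hd ρ (Finset.mem_of_mem_erase hρ) η (Finset.mem_of_mem_erase hη))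
    have hP' : ∀ μ, ∀ ρ ∈ T.erase μ, Prim A ρ := fun μ ρ hρ => hP ρ (Finset.mem_of_mem_erase hρ)
    by_contra hcon
    push Not at hcon
    obtain ⟨μ₀, hμ₀, hg₀⟩ := hcon
    -- all terms are nonzero
    have hne : ∀ μ ∈ T, g μ ≠ 0 := by
      intro μ hμ h0
      have h1 : ∑ ρ ∈ T.erase μ, g ρ = 0 := by
        rw [← Finset.add_sum_erase T g hμ, h0, zero_add] at hs
        exact hs
      have h2 := hJ μ hμ g (fun ρ hρ => hg ρ (Finset.mem_of_mem_erase hρ)) h1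
      by_cases h3 : μ₀ = μ
      · rw [h3] at hg₀; exact hg₀ h0
      · exact hg₀ (h2 μ₀ (Finset.mem_erase.2 ⟨h3, hμ₀⟩))
    -- no prime is below the sum of the others
    have hnb : ∀ μ ∈ T, ¬ sp μ ≤ sp (tot (T.erase μ)) := by
      intro μ hμ hl
      exact Finset.notMem_erase μ T (h.prime_below (hP' μ) (hJ μ hμ) (hP μ hμ) hl)
    have hin : ∀ μ ∈ T, g μ ∈ sp (tot (T.erase μ)) := by
      intro μ hμ
      have h1 : g μ = ∑ ρ ∈ T.erase μ, g ρ := by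
        rw [← Finset.add_sum_erase T g hμ] at hs
        exact aez.1 hs
      rw [h1]
      exact Submodule.sum_mem _ fun ρ hρ =>
        h.le_tot (hP' μ) (hJ μ hμ) hρ (hg ρ (Finset.mem_of_mem_erase hρ))
    have hge : ∀ μ ∈ T, μ e ≠ g μ := by
      intro μ hμ h1
      exact hnb μ hμ (h.L1 (hP μ hμ).1 (tot_mem (hP' μ)) (h1 ▸ hin μ hμ))
    -- another member
    obtain ⟨μ₁, hμ₁, h01⟩ : ∃ μ₁ ∈ T, μ₁ ≠ μ₀ := by
      by_contra hc
      push Not at hc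
      apply hne μ₀ hμ₀
      rw [← hs]
      symm
      refine Finset.sum_eq_single μ₀ (fun ρ hρ hρ' => absurd (hc ρ hρ) hρ') fun h1 => absurd hμ₀ h1
    set T' := (T.erase μ₀).erase μ₁ with hT'
    have hsplit : ∀ g' : Frm V → Dl V, ∑ ρ ∈ T, g' ρ = g' μ₀ + (g' μ₁ + ∑ ρ ∈ T', g' ρ) := by
      intro g'
      rw [hT', Finset.add_sum_erase (T.erase μ₀) g' (Finset.mem_erase.2 ⟨h01, hμ₁⟩),
        Finset.add_sum_erase T g' hμ₀]
    have hgT' : ∑ ρ ∈ T', g ρ = g μ₀ + g μ₁ := by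
      rw [hsplit g, ← add_assoc] at hs
      exact (aez.1 hs).symm
    have hPT' : ∀ ρ ∈ T', Prim A ρ := fun ρ hρ =>
      hP ρ (Finset.mem_of_mem_erase (Finset.mem_of_mem_erase hρ))
    -- prescribed values for one of the two and all others
    have hval : ∀ μ ∈ T, ∀ η ∈ T, μ ≠ η → (∀ ρ ∈ T', ρ ∈ T.erase η) → (∀ ρ ∈ T', ρ ≠ μ) →
        ∀ u ∈ sp μ, ∃ y, μ y = u ∧ tot T' y = g μ₀ + g μ₁ := by
      intro μ hμ η hη hμη hs1 hs2 u hu
      obtain ⟨y, hy⟩ := h.exists_vals (hP' η) (hJ η hη) (fun ρ => if ρ = μ then u else g ρ) (by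
        intro ρ hρ
        split_ifs with h1
        · rw [h1]; exact hu
        · exact hg ρ (Finset.mem_of_mem_erase hρ))
      refine ⟨y, ?_, ?_⟩
      · have := hy μ (Finset.mem_erase.2 ⟨hμη, hμ⟩)
        rw [if_pos rfl] at this
        exact this
      · rw [tot_apply, ← hgT']
        refine Finset.sum_congr rfl fun ρ hρ => ?_
        have := hy ρ (hs1 ρ hρ)
        rw [if_neg (hs2 ρ hρ)] at this
        exact this
    have hv0 := hval μ₀ hμ₀ μ₁ hμ₁ h01.symm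
      (fun ρ hρ => Finset.mem_erase.2 ⟨(Finset.mem_erase.1 hρ).1,
        Finset.mem_of_mem_erase (Finset.mem_of_mem_erase hρ)⟩)
      (fun ρ hρ => (Finset.mem_erase.1 (Finset.mem_of_mem_erase hρ)).1)
    have hv1 := hval μ₁ hμ₁ μ₀ hμ₀ h01
      (fun ρ hρ => Finset.mem_of_mem_erase hρ)
      (fun ρ hρ => (Finset.mem_erase.1 hρ).1)
    -- the pair
    have hPp : ∀ ρ ∈ ({μ₀, μ₁} : Finset (Frm V)), Prim A ρ := by
      intro ρ hρ
      rcases Finset.mem_insert.1 hρ with rfl | h1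
      · exact hP _ hμ₀
      · rw [Finset.mem_singleton.1 h1]; exact hP _ hμ₁
    have hJp := h.ji_pair h01.symm (hd μ₀ hμ₀ μ₁ hμ₁ h01.symm)
    obtain ⟨x, hx⟩ := h.exists_vals hPp hJp g (by
      intro ρ hρ
      rcases Finset.mem_insert.1 hρ with rfl | h1
      · exact hg _ hμ₀
      · rw [Finset.mem_singleton.1 h1]; exact hg _ hμ₁)
    have hx0 : μ₀ x = g μ₀ := hx μ₀ (by simp)
    have hx1 : μ₁ x = g μ₁ := hx μ₁ (by simp)
    have hxt : tot {μ₀, μ₁} x = g μ₀ + g μ₁ := by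
      rw [tot_apply, Finset.sum_pair h01.symm, hx0, hx1]
    have hl3 : ∀ y, tot T' y = g μ₀ + g μ₁ →
        (μ₀ y = g μ₀ ∧ μ₁ y = g μ₁) ∨ μ₀ y = 0 ∨ μ₁ y = 0 := by
      intro y hy
      rcases h.lem3' hPp hJp (tot_mem hPT') (x := x) (y := y) (by rw [hxt, hy]) with
        h1 | ⟨ρ, hρ, -, h1⟩
      · left
        have e0 := h1 μ₀ (by simp) (by rw [hx0]; exact hne μ₀ hμ₀)
        have e1 := h1 μ₁ (by simp) (by rw [hx1]; exact hne μ₁ hμ₁)
        rw [hx0] at e0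
        rw [hx1] at e1
        exact ⟨e0, e1⟩
      · rcases Finset.mem_insert.1 hρ with rfl | h2
        · exact Or.inr (Or.inl h1)
        · rw [Finset.mem_singleton.1 h2] at h1; exact Or.inr (Or.inr h1)
    have m0 : μ₀ e ≠ 0 := h.zero_e (hP _ hμ₀).1 (hP _ hμ₀).2.1
    have m1 : μ₁ e ≠ 0 := h.zero_e (hP _ hμ₁).1 (hP _ hμ₁).2.1
    obtain ⟨y₁, a1, a2⟩ := hv0 (μ₀ e) ⟨e, rfl⟩
    obtain ⟨y₂, b1, b2⟩ := hv0 (μ₀ e + g μ₀) (Submodule.add_mem _ ⟨e, rfl⟩ (hg _ hμ₀))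
    obtain ⟨y₃, c1, c2⟩ := hv1 (μ₁ e) ⟨e, rfl⟩
    have a3 : μ₁ y₁ = 0 := by
      rcases hl3 y₁ a2 with ⟨h1, -⟩ | h1 | h1
      · rw [a1] at h1; exact absurd h1 (hge _ hμ₀)
      · rw [a1] at h1; exact absurd h1 m0
      · exact h1
    have b3 : μ₁ y₂ = 0 := by
      rcases hl3 y₂ b2 with ⟨h1, -⟩ | h1 | h1
      · rw [b1] at h1
        exact absurd (by simpa only [add_eq_right] using h1) m0
      · rw [b1] at h1; exact absurd (aez.1 h1) (hge _ hμ₀)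
      · exact h1
    have c3 : μ₀ y₃ = 0 := by
      rcases hl3 y₃ c2 with ⟨-, h1⟩ | h1 | h1
      · rw [c1] at h1; exact absurd h1 (hge _ hμ₁)
      · exact h1
      · rw [c1] at h1; exact absurd h1 m1
    have d0 : μ₀ (y₁ + y₂ + y₃) = g μ₀ := by
      rw [map_add, map_add, a1, b1, c3, add_zero, add_cancel_left']
    have d1 : μ₁ (y₁ + y₂ + y₃) = μ₁ e := by
      rw [map_add, map_add, a3, b3, c1, zero_add, zero_add]
    have d2 : tot T' (y₁ + y₂ + y₃) = g μ₀ + g μ₁ := by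
      rw [map_add, map_add, a2, b2, c2, vadd, zero_add]
    rcases hl3 _ d2 with ⟨-, h1⟩ | h1 | h1
    · rw [d1] at h1; exact hge _ hμ₁ h1
    · rw [d0] at h1; exact hne _ hμ₀ h1
    · rw [d1] at h1; exact m1 h1

/-- the union of the supports of the primes related to `μ` -/
def cl (h : CS A e) (μ : Frm V) (hμ : Prim A μ) : DSub V where
  carrier := {f | ∃ ρ, Prim A ρ ∧ Rl ρ μ ∧ f ∈ sp ρ}
  add_mem' := by
    rintro f g ⟨ρ, hρ, hr, hf⟩ ⟨ρ', hρ', hr', hg⟩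
    by_cases he : ρ = ρ'
    · subst he
      exact ⟨ρ, hρ, hr, Submodule.add_mem _ hf hg⟩
    obtain ⟨k, hk⟩ := h.rl_trans hρ hμ hρ' hr hr'.symm
    rcases h.via_sum hρ hρ' he hk hf hg with h1 | h1 | h1
    · exact ⟨ρ, hρ, hr, h1⟩
    · exact ⟨ρ', hρ', hr', h1⟩
    · refine ⟨ρ + ρ', h.prim_add hρ hρ' he hk, ?_, h1⟩
      exact h.rl_trans (h.prim_add hρ hρ' he hk) hρ hμ
        ⟨k, hk.1, h.via_add hρ hρ' he hk, hk.2.1⟩ hr
  zero_mem' := ⟨μ, hμ, h.rl_refl hμ, Submodule.zero_mem _⟩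
  smul_mem' := by
    rintro c f ⟨ρ, hρ, hr, hf⟩
    exact ⟨ρ, hρ, hr, Submodule.smul_mem _ c hf⟩

theorem mem_cl {μ : Frm V} {hμ : Prim A μ} {f : Dl V} :
    f ∈ cl h μ hμ ↔ ∃ ρ, Prim A ρ ∧ Rl ρ μ ∧ f ∈ sp ρ := Iff.rfl

theorem cl_eq {μ η : Frm V} (hμ : Prim A μ) (hη : Prim A η) (hr : Rl μ η) :
    cl h μ hμ = cl h η hη := by
  ext f
  rw [h.mem_cl, h.mem_cl]
  constructor
  · rintro ⟨ρ, hρ, h1, h2⟩
    exact ⟨ρ, hρ, h.rl_trans hρ hμ hη h1 hr, h2⟩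
  · rintro ⟨ρ, hρ, h1, h2⟩
    exact ⟨ρ, hρ, h.rl_trans hρ hη hμ h1 hr.symm, h2⟩

theorem rl_of_cl {μ η : Frm V} (hμ : Prim A μ) (hη : Prim A η) (hc : cl h μ hμ = cl h η hη) :
    Rl μ η := by
  have h1 : μ e ∈ cl h μ hμ := ⟨μ, hμ, h.rl_refl hμ, ⟨e, rfl⟩⟩
  rw [hc] at h1
  obtain ⟨ρ, hρ, hr, h2⟩ := h1
  exact h.rl_trans hμ hρ hη ⟨μ e, h.zero_e hμ.1 hμ.2.1, ⟨e, rfl⟩, h2⟩ hr

end CS

end Pool.Agent.Helper94.Slot
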