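import Pool.Agent.Helper94.ETC.CS.Prime

set_option autoImplicit false
set_option linter.unusedSectionVars false

/-! # Prime members whose supports meet -/

namespace Pool.Agent.Helper94.Slot

open Module Pool.Agent.W622.ETC

variable {V : Type} [AddCommGroup V] [Module (ZMod 2) V] [Finite V]
variable {A : Fam V} {e : V}

/-- the nonzero functional `f` lies in the supports of `μ` and `η` -/
def Via (f : Dl V) (μ η : Frm V) : Prop := f ≠ 0 ∧ f ∈ sp μ ∧ f ∈ sp η

/-- the supports meet -/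
def Rl (μ η : Frm V) : Prop := ∃ f, Via f μ η

theorem Via.symm {f : Dl V} {μ η : Frm V} (hv : Via f μ η) : Via f η μ := ⟨hv.1, hv.2.2, hv.2.1⟩

theorem Rl.symm {μ η : Frm V} (hr : Rl μ η) : Rl η μ := by
  obtain ⟨f, hf⟩ := hr
  exact ⟨f, hf.symm⟩

namespace CS

variable (h : CS A e)
include h

theorem rl_refl {μ : Frm V} (hμ : Prim A μ) : Rl μ μ :=
  ⟨μ e, h.zero_e hμ.1 hμ.2.1, ⟨e, rfl⟩, ⟨e, rfl⟩⟩

theorem eq_of_le {μ η : Frm V} (hμ : Prim A μ) (hη : Prim A η) (hl : sp μ ≤ sp η) : μ = η :=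
  (hη.2.2 μ hμ.1 hl).resolve_left hμ.2.1

theorem via_e {f : Dl V} {μ η : Frm V} (hμ : Prim A μ) (hη : Prim A η) (hne : μ ≠ η)
    (hv : Via f μ η) : f e = 1 := by
  by_contra hc
  exact hne (h.eq_of_le hμ hη (h.lem4 hμ hη.1 hv.1 hv.2.1 hv.2.2 (z_ne' hc)))

theorem via_unique {f f' : Dl V} {μ η : Frm V} (hμ : Prim A μ) (hη : Prim A η) (hne : μ ≠ η)
    (hv : Via f μ η) (hv' : Via f' μ η) : f = f' := by
  by_contra hc
  have h1 : f + f' ≠ 0 := fun h1 => hc (aez.1 h1)
  have h2 := h.via_e hμ hη hne (f := f + f')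
    ⟨h1, Submodule.add_mem _ hv.2.1 hv'.2.1, Submodule.add_mem _ hv.2.2 hv'.2.2⟩
  rw [LinearMap.add_apply, h.via_e hμ hη hne hv, h.via_e hμ hη hne hv', zadd] at h2
  exact zero_ne_one h2

/-- the common functional of two primes is not a value at `e` -/
theorem via_not {f : Dl V} {μ η κ : Frm V} (hμ : Prim A μ) (hη : Prim A η) (hne : μ ≠ η)
    (hv : Via f μ η) (hκ : κ ∈ A) : κ e ≠ f := by
  intro hk
  have h1 : sp κ ≤ sp μ := h.L1 hκ hμ.1 (hk ▸ hv.2.1)
  have h2 : sp κ ≤ sp η := h.L1 hκ hη.1 (hk ▸ hv.2.2)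
  have h0 : κ ≠ 0 := by
    rintro rfl
    exact hv.1 hk.symm
  exact hne (((hμ.2.2 κ hκ h1).resolve_left h0).symm.trans ((hη.2.2 κ hκ h2).resolve_left h0))

/-- values of one of two primes whose supports meet -/
theorem via_vals {f : Dl V} {μ η : Frm V} (hμ : Prim A μ) (hη : Prim A η) (hne : μ ≠ η)
    (hv : Via f μ η) (x : V) :
    (f x = 0 ∧ (μ x = 0 ∨ μ x = f)) ∨ (f x = 1 ∧ (μ x = μ e ∨ μ x = μ e + f)) := by
  have key : ∀ x, f x = 0 → μ x = 0 ∨ μ x = f := by
    intro x hx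
    have h1 : x ∈ LinearMap.ker μ ⊔ LinearMap.ker η := by
      by_contra hc
      obtain ⟨g, hg, hgx⟩ := exists_dual hc
      have hg1 : g ∈ sp μ := (h.mem_sp hμ.1).2 fun b hb => hg b (Submodule.mem_sup_left hb)
      have hg2 : g ∈ sp η := (h.mem_sp hη.1).2 fun b hb => hg b (Submodule.mem_sup_right hb)
      have hg0 : g ≠ 0 := by
        rintro rfl
        exact zero_ne_one hgx
      rw [h.via_unique hμ hη hne ⟨hg0, hg1, hg2⟩ hv, hx] at hgx
      exact zero_ne_one hgx
    obtain ⟨x₁, hx₁, x₂, hx₂, rfl⟩ := Submodule.mem_sup.1 h1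
    have hx₁' : μ x₁ = 0 := hx₁
    have hx₂' : η x₂ = 0 := hx₂
    obtain ⟨u, hu⟩ := hv.2.1
    obtain ⟨v, hvv⟩ := hv.2.2
    have hv0 : ∀ z, η z = f → μ z = 0 ∨ μ z = f := by
      intro z hz
      rcases h.lem3 hμ hη.1 (x := u) (y := z) (by rw [hu]; exact hv.1) (by rw [hu, hz]) with
        h3 | ⟨h3, -⟩
      · exact Or.inr (by rw [h3, hu])
      · exact Or.inl h3
    have h4 := hv0 v hvv
    have h5 := hv0 (v + x₂) (by rw [map_add, hx₂', add_zero, hvv])
    rw [map_add] at h5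
    rw [map_add, hx₁', zero_add]
    rcases h4 with h4 | h4 <;> rcases h5 with h5 | h5
    · left; rwa [h4, zero_add] at h5
    · right; rwa [h4, zero_add] at h5
    · right; rw [h4] at h5; exact (aez.1 h5).symm
    · left
      rw [h4] at h5
      have := congrArg (fun t => f + t) h5
      simpa only [add_cancel_left', vadd] using this
  rcases z01 (f x) with hx | hx
  · exact Or.inl ⟨hx, key x hx⟩
  · right
    refine ⟨hx, ?_⟩
    have h1 := key (x + e) (by rw [map_add, hx, h.via_e hμ hη hne hv, zadd])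
    rw [map_add] at h1
    rcases h1 with h1 | h1
    · left; exact aez.1 h1
    · right
      rw [← h1, add_comm (μ x), ← add_assoc, vadd, zero_add]

/-- the common functional is a value of the sum -/
theorem via_add {f : Dl V} {μ η : Frm V} (hμ : Prim A μ) (hη : Prim A η) (hne : μ ≠ η)
    (hv : Via f μ η) : f ∈ sp (μ + η) := by
  obtain ⟨b, hb, hb0⟩ : ∃ b, η b = 0 ∧ μ b ≠ 0 := by
    by_contra hc
    push Not at hc
    exact hne (h.eq_of_le hμ hη (h.le_of_ker hμ.1 hη.1 hc))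
  refine ⟨b, ?_⟩
  rw [LinearMap.add_apply, hb, add_zero]
  have hfb : f b = 0 := (h.mem_sp hη.1).1 hv.2.2 b hb
  rcases h.via_vals hμ hη hne hv b with ⟨-, h1 | h1⟩ | ⟨h1, -⟩
  · exact absurd h1 hb0
  · exact h1
  · rw [hfb] at h1
    exact absurd h1 zero_ne_one

/-- the sum of two primes whose supports meet is prime -/
theorem prim_add {f : Dl V} {μ η : Frm V} (hμ : Prim A μ) (hη : Prim A η) (hne : μ ≠ η)
    (hv : Via f μ η) : Prim A (μ + η) := by
  refine ⟨A.add_mem hμ.1 hη.1, ?_, fun κ hκ hl => ?_⟩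
  · intro h1
    apply hne
    refine LinearMap.ext fun x => aez.1 ?_
    exact congrArg (fun (t : Frm V) => t x) h1
  · by_cases h0 : κ = 0
    · exact Or.inl h0
    right
    obtain ⟨x, hx⟩ : κ e ∈ sp (μ + η) := hl ⟨e, rfl⟩
    rw [LinearMap.add_apply] at hx
    have hκe : κ e ≠ 0 := h.zero_e hκ h0
    have hκf : κ e ≠ f := h.via_not hμ hη hne hv hκ
    have hff : f + f = 0 := vadd f
    -- `κ(e)` is `(μ + η)(e)` or differs from it by `f`
    have h2 : κ e = μ e + η e ∨ κ e = μ e + η e + f := by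
      rcases h.via_vals hμ hη hne hv x with ⟨h3, h4⟩ | ⟨h3, h4⟩ <;>
        rcases h.via_vals hη hμ hne.symm hv.symm x with ⟨h5, h6⟩ | ⟨h5, h6⟩
      · exfalso
        rcases h4 with h4 | h4 <;> rcases h6 with h6 | h6 <;> rw [h4, h6] at hx
        · exact hκe (by rw [← hx, add_zero])
        · exact hκf (by rw [← hx, zero_add])
        · exact hκf (by rw [← hx, add_zero])
        · exact hκe (by rw [← hx, hff])
      · rw [h3] at h5; exact absurd h5 zero_ne_one
      · rw [h3] at h5; exact absurd h5.symm zero_ne_one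
      · rcases h4 with h4 | h4 <;> rcases h6 with h6 | h6 <;> rw [h4, h6] at hx
        · left; exact hx.symm
        · right; rw [← hx]; abel
        · right; rw [← hx]; abel
        · left
          rw [← hx]
          have : μ e + f + (η e + f) = μ e + η e + (f + f) := by abel
          rw [this, hff, add_zero]
    rcases h2 with h2 | h2
    · have h3 : κ + (μ + η) = 0 := h.inj _ (A.add_mem hκ (A.add_mem hμ.1 hη.1)) (by
        rw [LinearMap.add_apply, LinearMap.add_apply, h2, vadd])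
      exact aez.1 h3
    · exfalso
      apply h.via_not hμ hη hne hv (A.add_mem hκ (A.add_mem hμ.1 hη.1))
      rw [LinearMap.add_apply, LinearMap.add_apply, h2]
      have : μ e + η e + f + (μ e + η e) = (μ e + η e) + (μ e + η e) + f := by abel
      rw [this, vadd, zero_add]

/-- two different primes whose supports meet are not below the same member -/
theorem via_below {f : Dl V} {μ η ν : Frm V} (hμ : Prim A μ) (hη : Prim A η) (hne : μ ≠ η)
    (hv : Via f μ η) (hν : ν ∈ A) (h1 : sp μ ≤ sp ν) (h2 : sp η ≤ sp ν) : False := by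
  obtain ⟨z, hz⟩ := h1 hv.2.1
  obtain ⟨u, hu⟩ := hv.2.1
  obtain ⟨v, hv'⟩ := hv.2.2
  obtain ⟨b, hb⟩ := h.via_add hμ hη hne hv
  have e1 := h.step hμ.1 hν h1 (a := u) (y := z) (by rw [hu, hz])
  have e2 := h.step hη.1 hν h2 (a := v) (y := z) (by rw [hv', hz])
  have e3 := h.step (A.add_mem hμ.1 hη.1) hν
    ((Pool.Agent.W622.ETC.sp_add_le μ η).trans (sup_le h1 h2)) (a := b) (y := z) (by rw [hb, hz])
  rw [hu] at e1
  rw [hv'] at e2
  rw [hb, LinearMap.add_apply, e1, e2, vadd] at e3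
  exact hv.1 e3.symm

/-- sums of values of two primes whose supports meet -/
theorem via_sum {f : Dl V} {μ η : Frm V} (hμ : Prim A μ) (hη : Prim A η) (hne : μ ≠ η)
    (hv : Via f μ η) {g g' : Dl V} (hg : g ∈ sp μ) (hg' : g' ∈ sp η) :
    g + g' ∈ sp μ ∨ g + g' ∈ sp η ∨ g + g' ∈ sp (μ + η) := by
  obtain ⟨x, hx⟩ := id hg
  obtain ⟨y, hy⟩ := id hg'
  rcases h.via_vals hμ hη hne hv x with ⟨-, h4⟩ | ⟨-, h4⟩
  · right; left
    refine Submodule.add_mem _ ?_ hg'
    rw [← hx]
    rcases h4 with h4 | h4 <;> rw [h4]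
    · exact Submodule.zero_mem _
    · exact hv.2.2
  rcases h.via_vals hη hμ hne.symm hv.symm y with ⟨-, h6⟩ | ⟨-, h6⟩
  · left
    refine Submodule.add_mem _ hg ?_
    rw [← hy]
    rcases h6 with h6 | h6 <;> rw [h6]
    · exact Submodule.zero_mem _
    · exact hv.2.1
  right; right
  have hf := h.via_add hμ hη hne hv
  have he : μ e + η e ∈ sp (μ + η) := ⟨e, rfl⟩
  rw [← hx, ← hy]
  rcases h4 with h4 | h4 <;> rcases h6 with h6 | h6 <;> rw [h4, h6]
  · exact he
  · rw [← add_assoc]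
    exact Submodule.add_mem _ he hf
  · have : μ e + f + η e = μ e + η e + f := by abel
    rw [this]
    exact Submodule.add_mem _ he hf
  · have : μ e + f + (η e + f) = μ e + η e + (f + f) := by abel
    rw [this]
    exact Submodule.add_mem _ he (Submodule.add_mem _ hf hf)

/-- joint independence of two primes whose supports do not meet -/
theorem ji_pair {μ η : Frm V} (hne : μ ≠ η) (hr : ¬ Rl μ η) [DecidableEq (Frm V)] :
    JI ({μ, η} : Finset (Frm V)) := by
  intro g hg hs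
  rw [Finset.sum_pair hne] at hs
  have h1 : g μ = g η := aez.1 hs
  have h2 : g μ = 0 := by
    by_contra h0
    exact hr ⟨g μ, h0, hg μ (by simp), h1 ▸ hg η (by simp)⟩
  intro ρ hρ
  rcases Finset.mem_insert.1 hρ with rfl | h3
  · exact h2
  · rw [Finset.mem_singleton.1 h3, ← h1, h2]

/-- two different common functionals give the value at `e` -/
theorem via_two {f f' : Dl V} {μ η κ : Frm V} (hμ : Prim A μ) (hη : Prim A η) (hκ : Prim A κ)
    (h1 : μ ≠ η) (h2 : η ≠ κ) (hv : Via f μ η) (hv' : Via f' η κ) (hff : f ≠ f') :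
    η e = f + f' := by
  obtain ⟨y, hy⟩ := hv'.2.1
  have hn := h.via_not hη hκ h2 hv' hη.1
  rcases h.via_vals hη hμ h1.symm hv.symm y with ⟨-, h4 | h4⟩ | ⟨-, h4 | h4⟩ <;> rw [hy] at h4
  · exact absurd h4 hv'.1
  · exact absurd h4.symm hff
  · exact absurd h4.symm hn
  · rw [h4, add_comm (η e), ← add_assoc, vadd, zero_add]

/-- transitivity -/
theorem via_trans {f f' : Dl V} {μ η κ : Frm V} (hμ : Prim A μ) (hη : Prim A η) (hκ : Prim A κ)
    (h1 : μ ≠ η) (h2 : η ≠ κ) (h3 : μ ≠ κ) (hv : Via f μ η) (hv' : Via f' η κ) : f = f' := by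
  classical
  by_contra hff
  have hηe := h.via_two hμ hη hκ h1 h2 hv hv' hff
  by_cases hr : Rl μ κ
  · obtain ⟨f'', hv''⟩ := hr
    have n1 : f'' ≠ f := by
      rintro rfl
      exact hff (h.via_unique hη hκ h2 ⟨hv.1, hv.2.2, hv''.2.2⟩ hv')
    have n2 : f'' ≠ f' := by
      rintro rfl
      exact hff (h.via_unique hμ hη h1 hv ⟨hv'.1, hv''.2.1, hv'.2.1⟩)
    have hμe := h.via_two hη hμ hκ h1.symm h3 hv.symm hv'' n1.symm
    have hκe := h.via_two hη hκ hμ h2 h3.symm hv' hv''.symm n2.symm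
    have hs : κ = μ + η := by
      have : κ + (μ + η) = 0 := h.inj _ (A.add_mem hκ.1 (A.add_mem hμ.1 hη.1)) (by
        rw [LinearMap.add_apply, LinearMap.add_apply, hκe, hμe, hηe]
        have : f' + f'' + (f + f'' + (f + f')) = (f' + f') + (f'' + f'') + (f + f) := by abel
        rw [this, vadd f', vadd f'', vadd f, add_zero, add_zero])
      exact aez.1 this
    have hf := h.via_add hμ hη h1 hv
    rw [← hs] at hf
    exact hff (h.via_unique hη hκ h2 ⟨hv.1, hv.2.2, hf⟩ hv')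
  · have hJ := h.ji_pair h3 hr
    have hP : ∀ ρ ∈ ({μ, κ} : Finset (Frm V)), Prim A ρ := by
      intro ρ hρ
      rcases Finset.mem_insert.1 hρ with rfl | h4
      · exact hμ
      · rw [Finset.mem_singleton.1 h4]; exact hκ
    have l1 := h.le_tot hP hJ (μ := μ) (by simp)
    have l2 := h.le_tot hP hJ (μ := κ) (by simp)
    have l3 : sp η ≤ sp (tot {μ, κ}) := by
      refine h.L1 hη.1 (tot_mem hP) ?_
      rw [hηe]
      exact Submodule.add_mem _ (l1 hv.2.1) (l2 hv'.2.2)
    exact h.via_below hμ hη h1 hv (tot_mem hP) l1 l3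

theorem rl_trans {μ η κ : Frm V} (hμ : Prim A μ) (hη : Prim A η) (hκ : Prim A κ)
    (h1 : Rl μ η) (h2 : Rl η κ) : Rl μ κ := by
  by_cases e1 : μ = η
  · rw [e1]; exact h2
  by_cases e2 : η = κ
  · rw [← e2]; exact h1
  by_cases e3 : μ = κ
  · rw [e3]; exact h.rl_refl hκ
  obtain ⟨f, hf⟩ := h1
  obtain ⟨f', hf'⟩ := h2
  have := h.via_trans hμ hη hκ e1 e2 e3 hf hf'
  subst this
  exact ⟨f, hf.1, hf.2.1, hf'.2.2⟩

end CS

end Pool.Agent.Helper94.Slot
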