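import Pool.Agent.Helper94.ETC.CS.Fin
import Pool.Agent.Helper94.ETC.Add
import Pool.Graph.R_pool_sql_team_seeded_620a6dc7.HP953.EH.Over

set_option autoImplicit false

/-! # Structures in which all quaternions share a slot are of elementary type -/

namespace Pool.Agent.Helper94.Slot

open Module Pool.Agent.H315R3.ETC
open Pool.Agent.HP953.EH (AddQuat Sym sym_eq pair_of_add products_four_of_pair elem_of_over
  over_of_linked rel_annU annU efam form_of_sym sym_of_form)
open Pool.Agent.W622.ETC (Linked res)
open Pool.Agent.W622.ETG (BRI_A)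

theorem add_of_common {S : QData} (hS : IsQuat S) {e : S.G}
    (he : ∀ a b, ∃ c, S.q a b = S.q e c) : AddQuat S :=
  Pool.Agent.Helper94.ETC.add_of_slot hS e (β := fun _ _ => 0) (fun _ _ => rfl)
    (fun _ _ _ => (add_zero 0).symm) fun b x => ⟨fun _ => he b x, fun _ => rfl⟩

/-- the forms of a structure with additive quaternions are linked -/
theorem linked_of_add {S : QData} (hS : IsQuat S) (hA : AddQuat S)
    [Module (ZMod 2) (Additive S.G)] : Linked (BRI_A S) := by
  intro ω hω η hη a c hac
  obtain ⟨χ, hχ, h1, h2⟩ := pair_of_add hS hA a.toMul c.toMul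
    (fun x => ω a (Additive.ofMul x)) (fun x => ω a (Additive.ofMul x))
    (fun x y => map_add (ω a) (Additive.ofMul x) (Additive.ofMul y))
    (fun x y => map_add (ω a) (Additive.ofMul x) (Additive.ofMul y))
    (fun x hx => hω a (Additive.ofMul x) hx)
    (fun x hx => by
      show ω a (Additive.ofMul x) = 0
      rw [hac]
      exact hη c (Additive.ofMul x) hx)
    (fun _ _ => rfl)
  obtain ⟨ζ, hζ, hζχ⟩ := form_of_sym hχ
  refine ⟨ζ, hζ, ?_, ?_⟩
  · ext x
    rw [hζχ]
    exact h1 x.toMul
  · ext x
    rw [hζχ]
    exact h2 x.toMul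

/-- if all quaternions have the slot `e`, the structure is of elementary type -/
theorem elem_of_common (S : QData) (hS : IsQuat S) (hfin : Finite S.G) {e : S.G}
    (he : ∀ a b, ∃ c, S.q a b = S.q e c) : Elem S := by
  have hA := add_of_common hS he
  let _ : Module (ZMod 2) (Additive S.G) := AddCommGroup.zmodModule (n := 2) (by
    intro x
    rw [two_smul]
    exact hS.exp2 x.toMul)
  have : Finite (Additive S.G) := hfin
  have hCS : CS (BRI_A S) (Additive.ofMul e) := by
    refine ⟨fun ω hω => (efam hS ω hω).symm, linked_of_add hS hA, fun ω hω h0 => ?_⟩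
    ext a b
    obtain ⟨c, hc⟩ := he a.toMul b.toMul
    have h1 := sym_eq hS (sym_of_form hω) hc
    show ω a b = 0
    refine Eq.trans h1 ?_
    show ω (Additive.ofMul e) (Additive.ofMul c) = 0
    rw [h0]; rfl
  exact elem_of_over S hS hfin (products_four_of_pair hS hfin (pair_of_add hS hA)) fun U =>
    over_of_linked hS hfin (rel_annU hS U) (hCS.hered _)

end Pool.Agent.Helper94.Slot
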