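import Pool.Agent.Helper94.ETC.CS.Core

set_option autoImplicit false
set_option linter.unusedSectionVars false

/-! # Prime members and decompositions -/

namespace Pool.Agent.Helper94.Slot

open Module Pool.Agent.W622.ETC

variable {V : Type} [AddCommGroup V] [Module (ZMod 2) V] [Finite V]
variable {A : Fam V} {e : V}

omit [Finite V] in
theorem fadd (μ : Frm V) : μ + μ = 0 := LinearMap.ext fun x => vadd (μ x)

namespace CS

variable (h : CS A e)
include h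

theorem step {μ ν : Frm V} (hμ : μ ∈ A) (hν : ν ∈ A) (hl : sp μ ≤ sp ν) {a y : V}
    (hy : ν y = μ a) : μ y = μ a := h.stepA _ μ hμ ν hν le_rfl hl a y hy

theorem zero_e {μ : Frm V} (hμ : μ ∈ A) (h0 : μ ≠ 0) : μ e ≠ 0 := fun h1 => h0 (h.inj μ hμ h1)

theorem sp_add_le {μ ν : Frm V} (hl : sp μ ≤ sp ν) : sp (ν + μ) ≤ sp ν :=
  (Pool.Agent.W622.ETC.sp_add_le ν μ).trans (sup_le le_rfl hl)

/-- complements -/
theorem disj {μ ν : Frm V} (hμ : μ ∈ A) (hν : ν ∈ A) (hl : sp μ ≤ sp ν) {f : Dl V}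
    (h1 : f ∈ sp μ) (h2 : f ∈ sp (ν + μ)) : f = 0 := by
  refine LinearMap.ext fun x => ?_
  obtain ⟨y, hy⟩ : μ x ∈ sp ν := hl ⟨x, rfl⟩
  have h3 := h.step hμ hν hl hy
  have h4 : (ν + μ) y = 0 := by rw [LinearMap.add_apply, hy, h3, vadd]
  have h5 : μ (x + y) = 0 := by rw [map_add, h3, vadd]
  have e1 := (h.mem_sp hμ).1 h1 _ h5
  have e2 := (h.mem_sp (A.add_mem hν hμ)).1 h2 _ h4
  rw [map_add, e2, add_zero] at e1
  exact e1

theorem lem3 {μ η : Frm V} (hμ : Prim A μ) (hη : η ∈ A) {x y : V} (h0 : μ x ≠ 0)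
    (hxy : μ x = η y) : μ y = μ x ∨ (μ y = 0 ∧ μ x e = 1) := by
  rcases h.key hμ.1 hη hxy with ⟨κ, hκ, hκl, hκy⟩ | ⟨κ, hκ, hκl, hκy, hκa⟩
  · rcases hμ.2.2 κ hκ hκl with rfl | rfl
    · exact absurd hκy.symm h0
    · exact Or.inl hκy
  · rcases hμ.2.2 κ hκ hκl with rfl | rfl
    · exact absurd hκa (by simp)
    · exact Or.inr ⟨hκy, hκa⟩

theorem lem4 {μ η : Frm V} (hμ : Prim A μ) (hη : η ∈ A) {f : Dl V} (h0 : f ≠ 0) (h1 : f ∈ sp μ)
    (h2 : f ∈ sp η) (he : f e = 0) : sp μ ≤ sp η := by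
  obtain ⟨x, rfl⟩ := h1
  obtain ⟨y, hy⟩ := h2
  have key : ∀ z, η z = μ x → μ z = μ x := by
    intro z hz
    rcases h.lem3 hμ hη h0 hz.symm with h3 | ⟨-, h3⟩
    · exact h3
    · rw [he] at h3; exact absurd h3 zero_ne_one
  refine h.le_of_ker hμ.1 hη fun b hb => ?_
  have e1 := key y hy
  have e2 := key (y + b) (by rw [map_add, hb, add_zero, hy])
  rw [map_add, e1] at e2
  have := congrArg (fun t => μ x + t) e2
  simpa only [add_cancel_left', vadd] using this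

/-- a member below `ν` at a preimage of `μ(e)`, `μ` prime -/
theorem dich {μ κ ν : Frm V} (hμ : Prim A μ) (hκ : κ ∈ A) (hν : ν ∈ A) (hκν : sp κ ≤ sp ν)
    {s : V} (hs : ν s = μ e) : κ s = 0 ∨ κ s = μ e := by
  by_cases h0 : κ s = 0
  · exact Or.inl h0
  right
  obtain ⟨t, ht⟩ : κ e ∈ sp ν := hκν ⟨e, rfl⟩
  have h1 : μ t = κ s := h.F4 hν hμ.1 hκ hs ht
  have h2 : μ s = μ e := h.L0 hν hμ.1 hs
  rcases h.lem3 hμ hκ (x := t) (y := s) (by rw [h1]; exact h0) h1 with h3 | ⟨h3, -⟩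
  · rw [← h1, ← h3, h2]
  · rw [h2] at h3
    exact absurd h3 (h.zero_e hμ.1 hμ.2.1)

end CS

/-- joint independence of the supports -/
def JI (T : Finset (Frm V)) : Prop :=
  ∀ g : Frm V → Dl V, (∀ μ ∈ T, g μ ∈ sp μ) → ∑ μ ∈ T, g μ = 0 → ∀ μ ∈ T, g μ = 0

theorem JI.subset {T T' : Finset (Frm V)} (hT : JI T) (hs : T' ⊆ T) : JI T' := by
  classical
  intro g hg h0 μ hμ
  have h1 := hT (fun ρ => if ρ ∈ T' then g ρ else 0) (by
    intro ρ _
    split_ifs with hρ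
    · exact hg ρ hρ
    · exact Submodule.zero_mem _) (by
    rw [← Finset.sum_subset hs (fun x _ hx => by rw [if_neg hx])]
    rw [← h0]
    exact Finset.sum_congr rfl fun x hx => by rw [if_pos hx]) μ (hs hμ)
  simpa only [if_pos hμ] using h1

theorem JI.eq {T : Finset (Frm V)} (hT : JI T) {g g' : Frm V → Dl V} (hg : ∀ μ ∈ T, g μ ∈ sp μ)
    (hg' : ∀ μ ∈ T, g' μ ∈ sp μ) (hs : ∑ μ ∈ T, g μ = ∑ μ ∈ T, g' μ) : ∀ μ ∈ T, g μ = g' μ := by
  intro μ hμ
  have h1 := hT (fun ρ => g ρ + g' ρ) (fun ρ hρ => Submodule.add_mem _ (hg ρ hρ) (hg' ρ hρ)) (by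
    rw [Finset.sum_add_distrib, hs, vadd]) μ hμ
  exact aez.1 h1

/-- the sum of a set of forms -/
def tot (T : Finset (Frm V)) : Frm V := ∑ μ ∈ T, μ

theorem tot_apply (T : Finset (Frm V)) (x : V) : tot T x = ∑ μ ∈ T, μ x := by
  rw [tot, LinearMap.sum_apply]

theorem tot_mem {T : Finset (Frm V)} (hT : ∀ μ ∈ T, Prim A μ) : tot T ∈ A :=
  Submodule.sum_mem _ fun μ hμ => (hT μ hμ).1

theorem JI.ker {T : Finset (Frm V)} (hT : JI T) {x : V} (hx : tot T x = 0) :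
    ∀ μ ∈ T, μ x = 0 := by
  rw [tot_apply] at hx
  exact hT (fun μ => μ x) (fun μ _ => ⟨x, rfl⟩) hx

namespace CS

variable (h : CS A e)
include h

theorem le_tot {T : Finset (Frm V)} (hP : ∀ μ ∈ T, Prim A μ) (hT : JI T) {μ : Frm V}
    (hμ : μ ∈ T) : sp μ ≤ sp (tot T) :=
  h.le_of_ker (hP μ hμ).1 (tot_mem hP) fun _ hb => hT.ker hb μ hμ

/-- prescribed values -/
theorem exists_vals {T : Finset (Frm V)} (hP : ∀ μ ∈ T, Prim A μ) (hT : JI T)
    (g : Frm V → Dl V) (hg : ∀ μ ∈ T, g μ ∈ sp μ) : ∃ x, ∀ μ ∈ T, μ x = g μ := by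
  obtain ⟨x, hx⟩ : ∑ μ ∈ T, g μ ∈ sp (tot T) :=
    Submodule.sum_mem _ fun μ hμ => h.le_tot hP hT hμ (hg μ hμ)
  rw [tot_apply] at hx
  exact ⟨x, hT.eq (g := fun μ => μ x) (fun μ _ => ⟨x, rfl⟩) hg hx⟩

/-- members below a sum of independent primes -/
theorem below {T : Finset (Frm V)} (hP : ∀ μ ∈ T, Prim A μ) (hT : JI T) {κ : Frm V}
    (hκ : κ ∈ A) (hl : sp κ ≤ sp (tot T)) :
    ∃ T' ⊆ T, κ = tot T' ∧ ∀ μ ∈ T', sp μ ≤ sp κ := by
  classical
  have hs : ∀ μ : Frm V, ∃ s, μ ∈ T → tot T s = μ e := by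
    intro μ
    by_cases hμ : μ ∈ T
    · obtain ⟨s, hs⟩ := h.le_tot hP hT hμ ⟨e, rfl⟩
      exact ⟨s, fun _ => hs⟩
    · exact ⟨0, fun h1 => absurd h1 hμ⟩
  choose s hs using hs
  refine ⟨T.filter fun μ => κ (s μ) = μ e, Finset.filter_subset _ _, ?_, ?_⟩
  · have h1 : tot T (∑ μ ∈ T, s μ + e) = 0 := by
      rw [map_add, map_sum, tot_apply T e, Finset.sum_congr rfl fun μ hμ => hs μ hμ, vadd]
    have h2 := h.ker_of_le hκ (tot_mem hP) hl h1
    rw [map_add, map_sum] at h2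
    have h3 : κ e = (tot (T.filter fun μ => κ (s μ) = μ e)) e := by
      rw [← aez.1 h2, tot_apply, Finset.sum_filter]
      refine Finset.sum_congr rfl fun μ hμ => ?_
      split_ifs with h4
      · exact h4
      · exact (h.dich (hP μ hμ) hκ (tot_mem hP) hl (hs μ hμ)).resolve_right h4
    refine aez.1 (h.inj _ (A.add_mem hκ ?_) ?_)
    · exact tot_mem fun μ hμ => hP μ (Finset.mem_filter.1 hμ).1
    · rw [LinearMap.add_apply, h3, vadd]
  · intro μ hμ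
    obtain ⟨h1, h2⟩ := Finset.mem_filter.1 hμ
    exact h.L1 (hP μ h1).1 hκ ⟨s μ, h2⟩

theorem prime_below {T : Finset (Frm V)} (hP : ∀ μ ∈ T, Prim A μ) (hT : JI T) {κ : Frm V}
    (hκ : Prim A κ) (hl : sp κ ≤ sp (tot T)) : κ ∈ T := by
  obtain ⟨T', hT', hκT, hle⟩ := h.below hP hT hκ.1 hl
  have : T'.Nonempty := by
    rw [Finset.nonempty_iff_ne_empty]
    rintro rfl
    exact hκ.2.1 (by rw [hκT]; simp [tot])
  obtain ⟨μ, hμ⟩ := this
  rcases hκ.2.2 μ (hP μ (hT' hμ)).1 (hle μ hμ) with h1 | h1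
  · exact absurd h1 (hP μ (hT' hμ)).2.1
  · rw [← h1]; exact hT' hμ

omit h in
/-- a minimal nonzero member below a nonzero member -/
theorem exists_prime (n : ℕ) : ∀ ν ∈ A, ν ≠ 0 → cnt A ν ≤ n → CS A e →
    ∃ μ, Prim A μ ∧ sp μ ≤ sp ν := by
  induction n with
  | zero =>
    intro ν hν _ hn _
    exfalso
    have : 0 < cnt A ν := by
      rw [cnt, Set.ncard_pos (Set.toFinite _)]
      exact ⟨ν, hν, le_rfl⟩
    omega
  | succ n ih =>
    intro ν hν h0 hn h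
    by_cases hp : Prim A ν
    · exact ⟨ν, hp, le_rfl⟩
    have : ∃ κ ∈ A, sp κ ≤ sp ν ∧ κ ≠ 0 ∧ κ ≠ ν := by
      by_contra hc
      push Not at hc
      refine hp ⟨hν, h0, fun κ hκ hl => ?_⟩
      by_cases h1 : κ = 0
      · exact Or.inl h1
      · exact Or.inr (hc κ hκ hl h1)
    obtain ⟨κ, hκ, hl, hκ0, hκν⟩ := this
    have hlt := h.cnt_lt hκ hν hl hκν
    obtain ⟨μ, hμ, hμκ⟩ := ih κ hκ hκ0 (by omega) h
    exact ⟨μ, hμ, hμκ.trans hl⟩

/-- every member is the sum of primes with independent supports -/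
theorem decomp (n : ℕ) : ∀ ν ∈ A, cnt A ν ≤ n →
    ∃ T : Finset (Frm V), (∀ μ ∈ T, Prim A μ) ∧ JI T ∧ tot T = ν := by
  classical
  induction n with
  | zero =>
    intro ν hν hn
    exfalso
    have : 0 < cnt A ν := by
      rw [cnt, Set.ncard_pos (Set.toFinite _)]
      exact ⟨ν, hν, le_rfl⟩
    omega
  | succ n ih =>
    intro ν hν hn
    by_cases h0 : ν = 0
    · refine ⟨∅, by simp, ?_, by rw [h0]; simp [tot]⟩
      intro g _ _ μ hμ
      simp at hμ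
    obtain ⟨μ, hμ, hl⟩ := exists_prime _ ν hν h0 le_rfl h
    have hne : ν + μ ≠ ν := by
      intro h1
      have h2 : ν + μ + ν = 0 := aez.2 h1
      have h3 : ν + μ + ν = μ + (ν + ν) := by abel
      have h4 : ν + ν = 0 := fadd ν
      rw [h3, h4, add_zero] at h2
      exact hμ.2.1 h2
    have hle := h.sp_add_le (μ := μ) (ν := ν) hl
    have hlt := h.cnt_lt (A.add_mem hν hμ.1) hν hle hne
    obtain ⟨T, hP, hT, hTt⟩ := ih (ν + μ) (A.add_mem hν hμ.1) (by omega)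
    have hd : ∀ f, f ∈ sp μ → f ∈ sp (tot T) → f = 0 := by
      intro f h1 h2
      rw [hTt] at h2
      exact h.disj hμ.1 hν hl h1 h2
    have hμT : μ ∉ T := by
      intro h1
      exact h.zero_e hμ.1 hμ.2.1 (hd _ ⟨e, rfl⟩ (h.le_tot hP hT h1 ⟨e, rfl⟩))
    refine ⟨insert μ T, ?_, ?_, ?_⟩
    · intro ρ hρ
      rcases Finset.mem_insert.1 hρ with rfl | h1
      · exact hμ
      · exact hP ρ h1
    · intro g hg hs
      rw [Finset.sum_insert hμT] at hs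
      have h1 : g μ = ∑ ρ ∈ T, g ρ := aez.1 hs
      have h2 : ∑ ρ ∈ T, g ρ ∈ sp (tot T) := Submodule.sum_mem _ fun ρ hρ =>
        h.le_tot hP hT hρ (hg ρ (Finset.mem_insert_of_mem hρ))
      have h3 : g μ = 0 := hd _ (hg μ (Finset.mem_insert_self _ _)) (h1 ▸ h2)
      rw [h3] at h1
      have h4 := hT g (fun ρ hρ => hg ρ (Finset.mem_insert_of_mem hρ)) h1.symm
      intro ρ hρ
      rcases Finset.mem_insert.1 hρ with rfl | h5
      · exact h3
      · exact h4 ρ h5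
    · have : tot (insert μ T) = μ + tot T := by rw [tot, tot, Finset.sum_insert hμT]
      have h4 : μ + μ = 0 := fadd μ
      rw [this, hTt, add_comm ν μ, ← add_assoc, h4, zero_add]

/-- the key lemma for a sum of independent primes -/
theorem lem3' {T : Finset (Frm V)} (hP : ∀ μ ∈ T, Prim A μ) (hT : JI T) {η : Frm V} (hη : η ∈ A)
    {x y : V} (hxy : tot T x = η y) :
    (∀ μ ∈ T, μ x ≠ 0 → μ y = μ x) ∨ (∃ μ ∈ T, μ x e = 1 ∧ μ y = 0) := by
  classical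
  rcases h.key (tot_mem hP) hη hxy with ⟨κ, hκ, hκl, hκy⟩ | ⟨κ, hκ, hκl, hκy, hκa⟩
  · left
    obtain ⟨T', hT', hκT, -⟩ := h.below hP hT hκ hκl
    rw [hκT, tot_apply, tot_apply] at hκy
    have h1 : ∑ μ ∈ T, (if μ ∈ T' then μ y else 0) = ∑ μ ∈ T, μ x := by
      rw [← hκy, ← Finset.sum_subset hT' (fun x _ hx => by rw [if_neg hx])]
      exact Finset.sum_congr rfl fun x hx => by rw [if_pos hx]
    have h2 := hT.eq (g := fun μ => if μ ∈ T' then μ y else 0) (g' := fun μ => μ x) (by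
      intro ρ _
      split_ifs with hρ
      · exact ⟨y, rfl⟩
      · exact Submodule.zero_mem _) (fun μ _ => ⟨x, rfl⟩) h1
    intro μ hμ h0
    have h3 := h2 μ hμ
    split_ifs at h3 with h4
    · exact h3
    · exact absurd h3.symm h0
  · right
    obtain ⟨T', hT', hκT, -⟩ := h.below hP hT hκ hκl
    rw [hκT] at hκy
    have h1 := (hT.subset hT').ker hκy
    rw [hκT, tot_apply, LinearMap.sum_apply] at hκa
    by_contra hc
    push Not at hc
    have : ∑ μ ∈ T', μ x e = 0 := Finset.sum_eq_zero fun μ hμ => by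
      by_contra h2
      exact hc μ (hT' hμ) (z_ne h2) (h1 μ hμ)
    rw [this] at hκa
    exact zero_ne_one hκa

end CS

end Pool.Agent.Helper94.Slot
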